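import Pool.Agent.H379R2.W.Count2

set_option autoImplicit false

/-! The composite numbers without a witness `1 < b ≤ 2 (log n)²` are sparse: at most
`O(x^(2/3+ε))` of them up to `x`, unconditionally. -/

namespace Pool.Agent.Results.MP_0b15c0_nt.FewExceptions

/-- `n` fails the strong test for the base `b`: writing `n - 1 = 2 ^ j * d` with `d` odd, neither
`b ^ d = 1` nor `b ^ (2 ^ i * d) = -1` for some `i < j`, modulo `n`. -/
def IsWitness (n b : ℕ) : Prop :=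
  ∀ j d : ℕ, n - 1 = 2 ^ j * d → Odd d →
    (b : ZMod n) ^ d ≠ 1 ∧ ∀ i : ℕ, i < j → (b : ZMod n) ^ (2 ^ i * d) ≠ -1

/-- the composite numbers at most `x` without a witness in `1 < b ≤ 2 (log n)²` -/
def Exceptions (x : ℕ) : Set ℕ :=
  {n : ℕ | n ≤ x ∧ 2 ≤ n ∧ ¬ n.Prime ∧
    ¬ ∃ b : ℕ, 1 < b ∧ (b : ℝ) ≤ 2 * (Real.log n) ^ 2 ∧ IsWitness n b}

/-- For every `ε > 0` there is `K` such that for all `x ≥ 1` at most `K x^(2/3+ε)` composite
`n ≤ x` have no witness `b` with `1 < b ≤ 2 (log n)²`. -/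
theorem result (ε : ℝ) (hε : 0 < ε) : ∃ K : ℝ, ∀ x : ℕ, 1 ≤ x →
    (Exceptions x).Finite ∧ ((Exceptions x).ncard : ℝ) ≤ K * (x : ℝ) ^ (2 / 3 + ε) := by
  classical
  obtain ⟨K, hK⟩ := H379R2.W.bad_count2 ε hε
  refine ⟨K, fun x hx => ?_⟩
  have h1 : Exceptions x ⊆ (((Finset.Icc 1 x).filter H379R2.W.Bad : Finset ℕ) : Set ℕ) := by
    intro n hn
    obtain ⟨h1, h2, h3, h4⟩ := hn
    rw [Finset.mem_coe, Finset.mem_filter, Finset.mem_Icc]
    refine ⟨⟨by omega, h1⟩, h2, h3, fun b hb1 hb2 => ?_⟩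
    by_contra hp
    apply h4
    refine ⟨b, hb1, hb2, fun j d hjd hd => ⟨fun e => ?_, fun i hi e => ?_⟩⟩
    · exact hp ⟨j, d, hjd, hd, Or.inl e⟩
    · exact hp ⟨j, d, hjd, hd, Or.inr ⟨i, hi, e⟩⟩
  have h2 : (Exceptions x).Finite := (Finset.finite_toSet _).subset h1
  refine ⟨h2, le_trans ?_ (hK x hx)⟩
  have h3 := Set.ncard_le_ncard h1 (Finset.finite_toSet _)
  rw [Set.ncard_coe_finset] at h3
  exact_mod_cast h3

end Pool.Agent.Results.MP_0b15c0_nt.FewExceptions
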