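import Pool.Agent.H471R4.BW.Final
import Pool.Agent.H471R4.BW.Many
import Pool.Agent.H471R4.BW.BFM
import Pool.Agent.H471R4.BW.BGE
import Pool.Agent.H471R4.BW.BIN
import Pool.Agent.H471R4.BW.CS0
import Pool.Agent.H471R4.BW.CS1
import Pool.Agent.H471R4.BW.CS2
import Pool.Agent.H471R4.BW.HOL
import Pool.Agent.H471R4.BW.MOM
import Pool.Agent.H471R4.BW.NU1
import Pool.Agent.H471R4.BW.NU2b
import Pool.Agent.H471R4.BW.SHF
import Pool.Agent.H471R4.BW.SNG
import Pool.Agent.H471R4.BW.TRP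
import Pool.Agent.H471R4.BW.TUP
import Pool.Agent.H471R4.BW.VIN

set_option autoImplicit false

/-! Unconditional bound for the least witness of the strong pseudoprimality test for integers with
many prime factors: every large `n` with at least `k ≥ 4` distinct prime factors has a witness
`b ≤ n ^ (1 / (2 k e^(3/4)) + ε)`. -/

namespace Pool.Agent.Results.MP_0b15c0_nt.ManyPrimeFactors

open Pool.Agent.H471R4.BW

/-- `n` fails the strong test for the base `b`: writing `n - 1 = 2 ^ j * d` with `d` odd, neither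
`b ^ d = 1` nor `b ^ (2 ^ i * d) = -1` for some `i < j`, modulo `n`. -/
def IsWitness (n b : ℕ) : Prop :=
  ∀ j d : ℕ, n - 1 = 2 ^ j * d → Odd d →
    (b : ZMod n) ^ d ≠ 1 ∧ ∀ i : ℕ, i < j → (b : ZMod n) ^ (2 ^ i * d) ≠ -1

/-- For every `k ≥ 4` and `ε > 0` every large `n` with at least `k` distinct prime factors has a
witness `1 < b ≤ n ^ (1 / (2 k e^(3/4)) + ε)`. -/
theorem result (k : ℕ) (hk : 4 ≤ k) (ε : ℝ) (hε : 0 < ε) :
    ∃ n0 : ℕ, ∀ n : ℕ, n0 ≤ n → k ≤ n.primeFactors.card → ∃ b : ℕ, 1 < b ∧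
      (b : ℝ) ≤ (n : ℝ) ^ (1 / (2 * k * Real.exp (3 / 4)) + ε) ∧ IsWitness n b := by
  have hbin : BIN := bin (mom tup) nu1 nu2b shf hol
  have hbge : BGE := bge (bfm hbin) vin
  obtain ⟨n0, hn0⟩ := many (sng hbge) (trp hbge) (cs1 cs0) (cs2 cs0) k hk ε hε
  refine ⟨n0, fun n hn hc => ?_⟩
  obtain ⟨b, hb1, hb2, hb3⟩ := hn0 n hn hc
  exact ⟨b, hb1, hb2, fun j d hjd hd => not_passes hb3 j d hjd hd⟩

end Pool.Agent.Results.MP_0b15c0_nt.ManyPrimeFactors
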