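import Pool.Agent.H471R4.BW.Final
import Pool.Agent.H471R4.BW.BFM
import Pool.Agent.H471R4.BW.BGE
import Pool.Agent.H471R4.BW.BIN
import Pool.Agent.H471R4.BW.COR
import Pool.Agent.H471R4.BW.CRD
import Pool.Agent.H471R4.BW.CS0
import Pool.Agent.H471R4.BW.CS1
import Pool.Agent.H471R4.BW.CS2
import Pool.Agent.H471R4.BW.CSL
import Pool.Agent.H471R4.BW.Cse
import Pool.Agent.H471R4.BW.HOL
import Pool.Agent.H471R4.BW.Hch
import Pool.Agent.H471R4.BW.MN3
import Pool.Agent.H471R4.BW.MNB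
import Pool.Agent.H471R4.BW.MNP
import Pool.Agent.H471R4.BW.MOM
import Pool.Agent.H471R4.BW.MSQ
import Pool.Agent.H471R4.BW.Mna
import Pool.Agent.H471R4.BW.NU1
import Pool.Agent.H471R4.BW.NU2b
import Pool.Agent.H471R4.BW.NV0
import Pool.Agent.H471R4.BW.NV1
import Pool.Agent.H471R4.BW.SHF
import Pool.Agent.H471R4.BW.SMO
import Pool.Agent.H471R4.BW.SNG
import Pool.Agent.H471R4.BW.TRP
import Pool.Agent.H471R4.BW.TUP
import Pool.Agent.H471R4.BW.VIN
import Pool.Agent.H471R4.BW.WEL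

set_option autoImplicit false

/-! Unconditional bound for the least witness of the strong pseudoprimality test: every large
composite `n` has a witness `b ≤ n ^ (θ + ε)` with `θ = 1 / (4 e^(3/4) + 2 e^(1/2)) = 0.0850...`. -/

namespace Pool.Agent.Results.MP_0b15c0_nt.SmallWitness

open Pool.Agent.H471R4.BW

/-- `n` fails the strong test for the base `b`: writing `n - 1 = 2 ^ j * d` with `d` odd, neither
`b ^ d = 1` nor `b ^ (2 ^ i * d) = -1` for some `i < j`, modulo `n`. -/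
def IsWitness (n b : ℕ) : Prop :=
  ∀ j d : ℕ, n - 1 = 2 ^ j * d → Odd d →
    (b : ZMod n) ^ d ≠ 1 ∧ ∀ i : ℕ, i < j → (b : ZMod n) ^ (2 ^ i * d) ≠ -1

/-- For every `ε > 0` every large composite `n` has a witness `1 < b ≤ n ^ (θ + ε)`, where
`θ = 1 / (4 e^(3/4) + 2 e^(1/2))`. -/
theorem result (ε : ℝ) (hε : 0 < ε) : ∃ n0 : ℕ, ∀ n : ℕ, n0 ≤ n → ¬ n.Prime → ∃ b : ℕ, 1 < b ∧
    (b : ℝ) ≤ (n : ℝ) ^ (1 / (4 * Real.exp (3 / 4) + 2 * Real.exp (1 / 2)) + ε) ∧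
    IsWitness n b := by
  have hbin : BIN := bin (mom tup) nu1 nu2b shf hol
  have hbge : BGE := bge (bfm hbin) vin
  have hsng : SNG := sng hbge
  have htrp : TRP := trp hbge
  have hcs1 : CS1 := cs1 cs0
  have hcs2 : CS2 := cs2 cs0
  have hcsl : CSL := csl (wel (crd (cor (nv1 nv0))))
  have hmn3 : MN3 := mn3 cse (mna hsng) (mnb hsng htrp hcs2) hcs1 hcs2
  have hmnp : MNP := mnp hsng smo hcsl hch
  obtain ⟨n0, hn0⟩ := final hmn3 hmnp msq ε hε
  refine ⟨n0, fun n hn hnp => ?_⟩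
  obtain ⟨b, hb1, hb2, hb3⟩ := hn0 n hn hnp
  exact ⟨b, hb1, hb2, fun j d hjd hd => not_passes hb3 j d hjd hd⟩

end Pool.Agent.Results.MP_0b15c0_nt.SmallWitness
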