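import Pool.Agent.H471R4.BXF.LSQ
import Pool.Agent.H471R4.BXF.IDX
import Pool.Agent.H471R4.BXF.STR
import Pool.Agent.H471R4.BXF.CNT
import Pool.Agent.H471R4.BXF.FIN
import Pool.Agent.H471R4.BW.SMO
import Pool.Agent.H471R4.BW.MSQ

set_option autoImplicit false

/-! Composite integers without a witness of the strong pseudoprimality test below `n ^ δ` are
extremely rare: at most `K x ^ ε` of them up to `x`. -/

namespace Pool.Agent.Results.MP_0b15c0_nt.SparseExceptions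

open Pool.Agent.H471R4

/-- `n` fails the strong test for the base `b`: writing `n - 1 = 2 ^ j * d` with `d` odd, neither
`b ^ d = 1` nor `b ^ (2 ^ i * d) = -1` for some `i < j`, modulo `n`. -/
def IsWitness (n b : ℕ) : Prop :=
  ∀ j d : ℕ, n - 1 = 2 ^ j * d → Odd d →
    (b : ZMod n) ^ d ≠ 1 ∧ ∀ i : ℕ, i < j → (b : ZMod n) ^ (2 ^ i * d) ≠ -1

/-- the composite `n ≤ x` without a witness `1 < b ≤ n ^ δ` -/
def Exceptions (δ : ℝ) (x : ℕ) : Set ℕ :=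
  {n : ℕ | 2 ≤ n ∧ n ≤ x ∧ ¬ n.Prime ∧ ¬ ∃ b : ℕ, 1 < b ∧ (b : ℝ) ≤ (n : ℝ) ^ δ ∧ IsWitness n b}

theorem passes_of_not {n b : ℕ} (h : ¬ IsWitness n b) : Pool.Agent.H379R2.W.Passes n b := by
  unfold IsWitness at h
  push Not at h
  obtain ⟨j, d, h1, h2, h3⟩ := h
  by_cases h4 : (b : ZMod n) ^ d = 1
  · exact ⟨j, d, h1, h2, Or.inl h4⟩
  · obtain ⟨i, hi, h5⟩ := h3 h4
    exact ⟨j, d, h1, h2, Or.inr ⟨i, hi, h5⟩⟩

/-- For all `δ, ε > 0` there is `K` such that for every `x ≥ 1` at most `K x ^ ε` composite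
`n ≤ x` have no witness `1 < b ≤ n ^ δ`. -/
theorem result (δ ε : ℝ) (hδ : 0 < δ) (hε : 0 < ε) : ∃ K : ℝ, ∀ x : ℕ, 1 ≤ x →
    (Exceptions δ x).Finite ∧ ((Exceptions δ x).ncard : ℝ) ≤ K * (x : ℝ) ^ ε := by
  have hfin : BX.FIN := BX.fin_ (BX.cnt (BX.lsq BW.smo) (BX.idx BW.smo) BX.str) BW.msq
  obtain ⟨K, hK⟩ := hfin δ ε hδ hε
  refine ⟨K, fun x hx => ?_⟩
  have hf : (Exceptions δ x).Finite :=
    (Set.finite_Icc 2 x).subset fun n hn => ⟨hn.1, hn.2.1⟩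
  refine ⟨hf, ?_⟩
  rw [Set.ncard_eq_toFinset_card _ hf]
  refine hK x hx hf.toFinset fun n hn => ?_
  rw [Set.Finite.mem_toFinset] at hn
  obtain ⟨h1, h2, h3, h4⟩ := hn
  refine ⟨h1, h2, h3, fun b hb1 hb2 => passes_of_not fun hw => h4 ⟨b, hb1, hb2, hw⟩⟩

end Pool.Agent.Results.MP_0b15c0_nt.SparseExceptions
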